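import Pool.Agent.Lib.MP_4fbe7c_an.ND.Base
import Pool.Agent.Lib.MP_4fbe7c_an.UL.H54.Alg

/-!
Project ND (MP_4fbe7c_an), module CRI: the criterion (helper54).
-/

set_option autoImplicit false

open Set MeasureTheory

namespace Pool.Agent.Lib.MP_4fbe7c_an.ND.H54

open Pool.Agent.Lib.MP_4fbe7c_an.UL Pool.Agent.Lib.MP_4fbe7c_an.ND
open Pool.Agent.Lib.MP_4fbe7c_an.FC (GtmStatement)

theorem exists_uniform {S : Type*} {F : Set S} (hF : F.Finite) (P : S → ℝ → Prop)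
    (hP : ∀ s ∈ F, ∃ η : ℝ, 0 < η ∧ P s η)
    (hm : ∀ s ∈ F, ∀ η η' : ℝ, η' ≤ η → P s η → P s η') :
    ∃ η : ℝ, 0 < η ∧ ∀ s ∈ F, P s η := by
  induction F, hF using Set.Finite.induction_on with
  | empty => exact ⟨1, one_pos, fun s hs => absurd hs (Set.notMem_empty s)⟩
  | @insert a s _ _ ih =>
    obtain ⟨η₁, h1, h1'⟩ := ih (fun s hs => hP s (Set.mem_insert_of_mem _ hs))
      (fun s hs => hm s (Set.mem_insert_of_mem _ hs))
    obtain ⟨η₂, h2, h2'⟩ := hP a (Set.mem_insert _ _)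
    refine ⟨min η₁ η₂, lt_min h1 h2, fun s hs => ?_⟩
    rcases hs with rfl | hs
    · exact hm s (Set.mem_insert _ _) _ _ (min_le_right _ _) h2'
    · exact hm s (Set.mem_insert_of_mem _ hs) _ _ (min_le_left _ _) (h1' s hs)

/-- The possible configurations of the present species. -/
def Cfg (N : ℕ) (i₀ : Fin N) : Set (ℕ × (ℕ → Fin N)) :=
  {s | s.1 < N ∧ ∀ k, s.1 < k → s.2 k = i₀}

theorem finite_cfg {N : ℕ} (i₀ : Fin N) : (Cfg N i₀).Finite := by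
  classical
  let g : Fin N × (Fin N → Fin N) → ℕ × (ℕ → Fin N) :=
    fun a => (a.1, fun k => if h : k < N then a.2 ⟨k, h⟩ else i₀)
  refine (Set.finite_range g).subset ?_
  rintro ⟨n, σ⟩ ⟨h1, h2⟩
  refine ⟨(⟨n, h1⟩, fun k => σ k), ?_⟩
  refine Prod.ext rfl ?_
  funext k
  by_cases hk : k < N
  · simp [g, hk]
  · have h3 : σ k = i₀ := h2 k (by simp only [] at h1; omega)
    simp [g, hk, h3]

/-! ### Positivity of the dissipation -/

section dx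

variable {p : ℕ} {Ω : Set (Eu p)} {q : Eu p → ℝ}

theorem nf_nonneg {n c : ℕ} {r S Z ZZ : ℕ → ℝ} {ζ : ℝ} (hR : Rts n c r) :
    0 ≤ Nf n r S Z ZZ ζ := by
  unfold Nf
  have h : 0 ≤ ∑ j ∈ Finset.range n, Gs r (j + 1) * (bs S ZZ (j + 1) - bs S Z (j + 1)) ^ 2 :=
    Finset.sum_nonneg fun j hj =>
      mul_nonneg (UL.H54.gs_nonneg hR (Finset.mem_range.mp hj)) (sq_nonneg _)
  positivity

theorem dxn_nonneg {n c : ℕ} {ρ : ℕ → ℝ} (hR : Rts n c (rr n ρ)) (hρ : 0 < ρ 0)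
    {θ : Eu p → ℝ} {θ' : Eu p → Eu p} {f : ℕ → Eu p → ℝ} {f' : ℕ → Eu p → Eu p} {x : Eu p}
    (hx : 0 < θ x) : 0 ≤ DxN n ρ θ θ' f f' x := by
  unfold DxN NfN
  have h : 0 ≤ ∑ i, Nf n (rr n ρ) (Sk n fun i => f i x)
      (Zk n (fun i => f i x) fun k => (f' k x) i)
      (ZZk n ρ (fun i => f i x) fun k => (f' k x) i) (((θ x)⁻¹ • θ' x) i) :=
    Finset.sum_nonneg fun i _ => nf_nonneg hR
  have h1 : 0 ≤ ρ 0 / 16 * (θ x * ∑ i, Nf n (rr n ρ) (Sk n fun i => f i x)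
      (Zk n (fun i => f i x) fun k => (f' k x) i)
      (ZZk n ρ (fun i => f i x) fun k => (f' k x) i) (((θ x)⁻¹ • θ' x) i)) :=
    mul_nonneg (by positivity) (mul_nonneg hx.le h)
  have h2 : 0 ≤ 1 / 2 * (Pk (fun i => f i x) n - θ x) ^ 2 := by positivity
  exact add_nonneg h2 h1

theorem int_dxn_nonneg (hΩ : Dom Ω q) {n c : ℕ} {ρ : ℕ → ℝ} (hR : Rts n c (rr n ρ))
    (hρ : 0 < ρ 0) {θ : Eu p → ℝ} {θ' : Eu p → Eu p} {f : ℕ → Eu p → ℝ}
    {f' : ℕ → Eu p → Eu p} (hθ : ∀ x ∈ closure Ω, 0 < θ x) :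
    0 ≤ ∫ x in Ω, DxN n ρ θ θ' f f' x :=
  setIntegral_nonneg hΩ.measurableSet fun x hx =>
    dxn_nonneg hR hρ (hθ x (subset_closure hx))

end dx

/-! ### The time shift of a solution -/

theorem Sol.shift {p N : ℕ} {Ω : Set (Eu p)} {q m : Eu p → ℝ} {d : Fin N → ℝ}
    {u : Fin N → ℝ → Eu p → ℝ} {v : Fin N → ℝ → Eu p → Eu p}
    {w : Fin N → ℝ → Eu p → Eu p →L[ℝ] Eu p} (h : Sol Ω q m d u v w) {s : ℝ} (hs : 0 ≤ s)
    (h0 : ∀ i, ∀ x ∈ closure Ω, 0 ≤ u i s x) :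
    Sol Ω q m d (fun i t => u i (s + t)) (fun i t => v i (s + t)) (fun i t => w i (s + t)) := by
  refine ⟨fun i => (h.evo i).shift hs, fun i x hx => ?_⟩
  simpa using h0 i x hx

section main

variable {p : ℕ} {Ω : Set (Eu p)} {q m : Eu p → ℝ} {a₀ b : ℝ} {θ : Eu p → ℝ}
  {θ' : Eu p → Eu p} {θ'' : Eu p → Eu p →L[ℝ] Eu p} {N : ℕ} {d : Fin N → ℝ} {i₀ : Fin N}

/-- Lyapunov stability. -/
theorem stab (hRts : RtsStatement) (hDis : DisNStatement) (hUpp : UppStatement)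
    (hLob : LobStatement) (hPre : PreStatement) (hBnd : BndStatement) (hSho : ShoStatement)
    (hMrg : MrgNStatement) (hΩ : Dom Ω q) (hm : ContinuousOn m (closure Ω))
    (hd : ∀ i, 0 < d i) (hdj : ∀ j, j ≠ i₀ → d i₀ < d j) (hθ : Stdy Ω q m (d i₀) θ θ' θ'')
    (ha₀ : 0 < a₀) (hab : b ≤ 1001 / 1000 * a₀) (hθab : ∀ x ∈ closure Ω, a₀ ≤ θ x ∧ θ x ≤ b)
    (hζ : ∀ x ∈ closure Ω, d i₀ * (‖θ' x‖ / θ x) ^ 2 ≤ θ x / 1000) {ε : ℝ} (hε : 0 < ε) :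
    ∃ δ : ℝ, 0 < δ ∧ ∀ (u : Fin N → ℝ → Eu p → ℝ) (v : Fin N → ℝ → Eu p → Eu p)
      (w : Fin N → ℝ → Eu p → Eu p →L[ℝ] Eu p), Sol Ω q m d u v w → NearN Ω u i₀ θ δ 0 →
      ∀ t, 0 ≤ t → NearN Ω u i₀ θ ε t := by
  classical
  obtain ⟨M, K, hMK⟩ := hBnd p Ω q m N d (b + 1) hΩ hm hd
  have hc0 : ∀ s : ℕ × (ℕ → Fin N), ∃ c : ℕ, Ord s.1 (fun k => d (s.2 k)) →
      Rts s.1 c (rr s.1 (fun k => d (s.2 k))) := by
    intro s
    by_cases h : Ord s.1 (fun k => d (s.2 k))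
    · obtain ⟨c, hc⟩ := hRts s.1 (fun k => d (s.2 k)) h
      exact ⟨c, fun _ => hc⟩
    · exact ⟨0, fun h' => absurd h' h⟩
  choose c hc using hc0
  have hst : ∀ s : ℕ × (ℕ → Fin N), s.2 0 = i₀ →
      Stdy Ω q m ((fun k => d (s.2 k)) 0) θ θ' θ'' := by
    intro s hs
    change Stdy Ω q m (d (s.2 0)) θ θ' θ''
    rw [hs]
    exact hθ
  -- LOB, uniformly
  obtain ⟨η, hη, hlob⟩ := exists_uniform (finite_cfg i₀)
    (fun s η => s.2 0 = i₀ → Ord s.1 (fun k => d (s.2 k)) → ∀ f : ℕ → Eu p → ℝ,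
      (∀ i, i ≤ s.1 → ContinuousOn (f i) (closure Ω) ∧ LipOn Ω K (f i) ∧
        ∀ x ∈ closure Ω, 0 < f i x ∧ f i x ≤ M) →
      FuT Ω s.1 (c s) (fun k => d (s.2 k)) a₀ b θ f < FuE Ω θ + η →
      ∀ x ∈ closure Ω, |f 0 x - θ x| < ε ∧ ∀ i, 1 ≤ i → i ≤ s.1 → f i x < ε)
    (fun s _ => by
      by_cases h : s.2 0 = i₀ ∧ Ord s.1 (fun k => d (s.2 k))
      · obtain ⟨η, hη, h1⟩ := hLob p Ω q m a₀ b θ θ' θ'' s.1 (c s) (fun k => d (s.2 k)) M K ε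
          hΩ h.2 (hc s h.2) (hst s h.1) ha₀ hab hθab hε
        exact ⟨η, hη, fun _ _ f hf hF => h1 f hf hF⟩
      · exact ⟨1, one_pos, fun h1 h2 => absurd ⟨h1, h2⟩ h⟩)
    (fun s _ η η' hle h h1 h2 f hf hF => h h1 h2 f hf (by linarith))
  -- UPP, uniformly
  obtain ⟨δ₁, hδ₁, hupp⟩ := exists_uniform (finite_cfg i₀)
    (fun s δ => s.2 0 = i₀ → Ord s.1 (fun k => d (s.2 k)) → ∀ f : ℕ → Eu p → ℝ,
      (∀ i, i ≤ s.1 → ContinuousOn (f i) (closure Ω) ∧ ∀ x ∈ closure Ω, 0 < f i x) →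
      (∀ x ∈ closure Ω, |f 0 x - θ x| < δ ∧ ∀ i, 1 ≤ i → i ≤ s.1 → f i x < δ) →
      FuT Ω s.1 (c s) (fun k => d (s.2 k)) a₀ b θ f < FuE Ω θ + η)
    (fun s _ => by
      by_cases h : s.2 0 = i₀ ∧ Ord s.1 (fun k => d (s.2 k))
      · obtain ⟨δ, hδ, h1⟩ := hUpp p Ω q m a₀ b θ θ' θ'' s.1 (c s) (fun k => d (s.2 k)) η
          hΩ h.2 (hc s h.2) (hst s h.1) ha₀ hab hθab hη
        exact ⟨δ, hδ, fun _ _ f hf hF => h1 f hf hF⟩
      · exact ⟨1, one_pos, fun h1 h2 => absurd ⟨h1, h2⟩ h⟩)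
    (fun s _ δ δ' hle h h1 h2 f hf hF => h h1 h2 f hf fun x hx =>
      ⟨(hF x hx).1.trans_le hle, fun i hi hi' => ((hF x hx).2 i hi hi').trans_le hle⟩)
  obtain ⟨δ₂, hδ₂, hsho⟩ := hSho p Ω q m N d i₀ θ θ' θ'' (min ε δ₁) hΩ hm hd hθ (lt_min hε hδ₁)
  refine ⟨min δ₂ (min 1 a₀), lt_min hδ₂ (lt_min one_pos ha₀), ?_⟩
  intro u v w hsol hnear
  have hb : 0 < b := by
    obtain ⟨x, hx⟩ := hΩ.closure_nonempty
    linarith [hθab x hx]
  have hnear₂ : NearN Ω u i₀ θ δ₂ 0 := fun x hx =>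
    ⟨(hnear x hx).1.trans_le (min_le_left _ _),
      fun j hj => ((hnear x hx).2 j hj).trans_le (min_le_left _ _)⟩
  have hsh := hsho u v w hsol hnear₂
  -- bounds
  have hB : ∀ i, ∀ x ∈ closure Ω, u i 0 x ≤ b + 1 := by
    intro i x hx
    have h1 : min δ₂ (min 1 a₀) ≤ 1 := (min_le_right _ _).trans (min_le_left _ _)
    by_cases hi : i = i₀
    · rw [hi]
      have h2 := (abs_lt.mp (hnear x hx).1).2
      linarith [(hθab x hx).2]
    · have h2 := (hnear x hx).2 i hi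
      linarith
  have hbnd := hMK u v w hsol hB
  -- the species `i₀` is present
  have hex : ∃ x ∈ closure Ω, 0 < u i₀ 0 x := by
    obtain ⟨x, hx⟩ := hΩ.closure_nonempty
    refine ⟨x, hx, ?_⟩
    have h1 : min δ₂ (min 1 a₀) ≤ a₀ := (min_le_right _ _).trans (min_le_right _ _)
    have h2 := (abs_lt.mp (hnear x hx).1).1
    linarith [(hθab x hx).1]
  have hpre := fun i => hPre p Ω q m N d u v w hΩ hm hd hsol i
  have hpres : PresN Ω u i₀ := (hpre i₀).2.1 hex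
  obtain ⟨n, σ, hnN, hσi, hσne, hσ0, hOrd, hSol, hall⟩ := hMrg p Ω q m N d u v w i₀ hΩ hm hd hsol
    hpres hdj (fun j => (hpre j).2.2)
  have hcfg : ((n, σ) : ℕ × (ℕ → Fin N)) ∈ Cfg N i₀ := ⟨hnN, hσi⟩
  have hR := hc (n, σ) hOrd
  have hθ1 := hst (n, σ) hσ0
  have hζ1 : ∀ x ∈ closure Ω, (fun k => d (σ k)) 0 * (‖θ' x‖ / θ x) ^ 2 ≤ θ x / 1000 := by
    intro x hx
    change d (σ 0) * (‖θ' x‖ / θ x) ^ 2 ≤ θ x / 1000
    rw [hσ0]
    exact hζ x hx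
  have hdis := fun t ht => hDis p Ω q m a₀ b θ θ' θ'' n (c (n, σ)) (fun k => d (σ k))
    (fun k => u (σ k)) (fun k => v (σ k)) (fun k => w (σ k)) hSol hOrd hR hθ1 ha₀ hab hθab hζ1 t ht
  have hcont : ∀ t, 0 < t → ∀ i, i ≤ n → ContinuousOn (u (σ i) t) (closure Ω) ∧
      ∀ x ∈ closure Ω, 0 < u (σ i) t x := fun t ht i hi =>
    ⟨(hsol.evo (σ i)).c0 ht.le, hSol.pos i hi t ht⟩
  -- the functional is small at time `1`
  have hF1 : FuT Ω n (c (n, σ)) (fun k => d (σ k)) a₀ b θ (fun i => u (σ i) 1) < FuE Ω θ + η := by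
    refine hupp (n, σ) hcfg hσ0 hOrd (fun i => u (σ i) 1) (hcont 1 one_pos) ?_
    intro x hx
    have h1 := hsh 1 zero_le_one le_rfl x hx
    refine ⟨?_, fun i hi hin => ?_⟩
    · have h2 := h1.1.trans_le (min_le_right _ _)
      simpa only [hσ0] using h2
    · exact (h1.2 (σ i) (hσne i hi hin)).trans_le (min_le_right _ _)
  -- monotonicity
  have hanti : ∀ t, 1 ≤ t → FuT Ω n (c (n, σ)) (fun k => d (σ k)) a₀ b θ (fun i => u (σ i) t) ≤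
      FuT Ω n (c (n, σ)) (fun k => d (σ k)) a₀ b θ (fun i => u (σ i) 1) := by
    have hA : AntitoneOn (fun t => FuT Ω n (c (n, σ)) (fun k => d (σ k)) a₀ b θ
        (fun i => u (σ i) t)) (Ici 1) := by
      refine antitoneOn_of_deriv_nonpos (convex_Ici 1) ?_ ?_ ?_
      · intro t ht
        obtain ⟨F', h1, -⟩ := hdis t (one_pos.trans_le ht)
        exact h1.continuousAt.continuousWithinAt
      · intro t ht
        rw [interior_Ici] at ht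
        obtain ⟨F', h1, -⟩ := hdis t (one_pos.trans ht)
        exact h1.differentiableAt.differentiableWithinAt
      · intro t ht
        rw [interior_Ici] at ht
        obtain ⟨F', h1, h2⟩ := hdis t (one_pos.trans ht)
        have h3 : deriv (fun t => FuT Ω n (c (n, σ)) (fun k => d (σ k)) a₀ b θ
          (fun i => u (σ i) t)) t = F' := h1.deriv
        rw [h3]
        have h4 := int_dxn_nonneg hΩ hR (hd (σ 0)) hθ.pos (θ' := θ')
          (f := fun i => u (σ i) t) (f' := fun i => v (σ i) t)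
        linarith
    exact fun t ht => hA self_mem_Ici ht ht
  intro t ht x hx
  rcases le_total t 1 with h1 | h1
  · have h2 := hsh t ht h1 x hx
    exact ⟨h2.1.trans_le (min_le_left _ _), fun j hj => (h2.2 j hj).trans_le (min_le_left _ _)⟩
  · have ht0 : 0 < t := one_pos.trans_le h1
    have h2 := hlob (n, σ) hcfg hσ0 hOrd (fun i => u (σ i) t)
      (fun i hi => ⟨(hcont t ht0 i hi).1, (hbnd (σ i)).2 t h1, fun x hx =>
        ⟨(hcont t ht0 i hi).2 x hx, (hbnd (σ i)).1 t ht x hx⟩⟩)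
      ((hanti t h1).trans_lt hF1) x hx
    refine ⟨by simpa only [hσ0] using h2.1, fun j hj => ?_⟩
    rcases hall j hj with h3 | ⟨k, hk1, hkn, hkj⟩
    · rw [h3 t ht x hx]
      exact hε
    · have := h2.2 k hk1 hkn
      simpa only [hkj] using this

/-- Attraction. -/
theorem attr (hRts : RtsStatement) (hGtm : GtmStatement) (hDis : DisNStatement)
    (hLow : LowStatement) (hClo : CloNStatement) (hPre : PreStatement) (hBnd : BndStatement)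
    (hMrg : MrgNStatement) (hΩ : Dom Ω q) (hm : ContinuousOn m (closure Ω))
    (hnc : ∃ x ∈ closure Ω, ∃ y ∈ closure Ω, m x ≠ m y)
    (hd : ∀ i, 0 < d i) (hdj : ∀ j, j ≠ i₀ → d i₀ < d j) (hθ : Stdy Ω q m (d i₀) θ θ' θ'')
    (ha₀ : 0 < a₀) (hab : b ≤ 1001 / 1000 * a₀) (hθab : ∀ x ∈ closure Ω, a₀ ≤ θ x ∧ θ x ≤ b)
    (hζ : ∀ x ∈ closure Ω, d i₀ * (‖θ' x‖ / θ x) ^ 2 ≤ θ x / 1000) {δ : ℝ} (hδ : 0 < δ)
    {u : Fin N → ℝ → Eu p → ℝ} {v : Fin N → ℝ → Eu p → Eu p}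
    {w : Fin N → ℝ → Eu p → Eu p →L[ℝ] Eu p} (hsol : Sol Ω q m d u v w)
    (hex : ∃ x ∈ closure Ω, 0 < u i₀ 0 x) : ∃ t : ℝ, 1 ≤ t ∧ NearN Ω u i₀ θ δ t := by
  classical
  -- a bound of the initial data
  obtain ⟨B, hB⟩ : ∃ B : ℝ, ∀ i, ∀ x ∈ closure Ω, u i 0 x ≤ B := by
    have h1 : ∀ i, ∃ B : ℝ, ∀ x ∈ closure Ω, u i 0 x ≤ B := by
      intro i
      obtain ⟨C, -, hC⟩ := hΩ.exists_bound ((hsol.evo i).c0 le_rfl)
      exact ⟨C, fun x hx => (le_abs_self _).trans (hC x hx)⟩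
    choose B hB using h1
    refine ⟨∑ i, |B i|, fun i x hx => (hB i x hx).trans ((le_abs_self _).trans ?_)⟩
    exact Finset.single_le_sum (f := fun i => |B i|) (fun j _ => abs_nonneg _)
      (Finset.mem_univ i)
  obtain ⟨M, K, hMK⟩ := hBnd p Ω q m N d B hΩ hm hd
  have hbnd := hMK u v w hsol hB
  have hpre := fun i => hPre p Ω q m N d u v w hΩ hm hd hsol i
  have hpres : PresN Ω u i₀ := (hpre i₀).2.1 hex
  obtain ⟨n, σ, hnN, hσi, hσne, hσ0, hOrd, hSol, hall⟩ := hMrg p Ω q m N d u v w i₀ hΩ hm hd hsol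
    hpres hdj (fun j => (hpre j).2.2)
  obtain ⟨c, hR⟩ := hRts n (fun k => d (σ k)) hOrd
  have hθ1 : Stdy Ω q m ((fun k => d (σ k)) 0) θ θ' θ'' := by
    change Stdy Ω q m (d (σ 0)) θ θ' θ''
    rw [hσ0]
    exact hθ
  have hζ1 : ∀ x ∈ closure Ω, (fun k => d (σ k)) 0 * (‖θ' x‖ / θ x) ^ 2 ≤ θ x / 1000 := by
    intro x hx
    change d (σ 0) * (‖θ' x‖ / θ x) ^ 2 ≤ θ x / 1000
    rw [hσ0]
    exact hζ x hx
  obtain ⟨η, hη, hclo⟩ := hClo p Ω q m θ θ' θ'' n c (fun k => d (σ k)) M K δ hΩ hm hnc hOrd hR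
    hθ1 hδ
  have hdis := fun t ht => hDis p Ω q m a₀ b θ θ' θ'' n c (fun k => d (σ k))
    (fun k => u (σ k)) (fun k => v (σ k)) (fun k => w (σ k)) hSol hOrd hR hθ1 ha₀ hab hθab hζ1 t ht
  have hcont : ∀ t, 0 < t → ∀ i, i ≤ n → ContinuousOn (u (σ i) t) (closure Ω) ∧
      ∀ x ∈ closure Ω, 0 < u (σ i) t x := fun t ht i hi =>
    ⟨(hsol.evo (σ i)).c0 ht.le, hSol.pos i hi t ht⟩
  have hlow := fun t (ht : 0 < t) => hLow p Ω q m a₀ b θ θ' θ'' n c (fun k => d (σ k))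
    (fun i => u (σ i) t) hΩ hOrd hR hθ1 ha₀ hab hθab (hcont t ht)
  choose! F' hF' using hdis
  obtain ⟨t, -, ht1, hGt⟩ := hGtm
    (fun t => FuT Ω n c (fun k => d (σ k)) a₀ b θ (fun i => u (σ i) t)) F'
    (fun t => ∫ x in Ω, DxN n (fun k => d (σ k)) θ θ' (fun i => u (σ i) t)
      (fun i => v (σ i) t) x) 1 1 0 (-FuE Ω θ) one_pos
    (fun t ht => (hF' t (by linarith)).1)
    (fun t ht => by simpa using (hF' t (by linarith)).2)
    (fun t ht => by simpa using hlow t (by linarith)) η 1 hη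
  have ht0 : 0 < t := by linarith
  have hcl := hclo (fun i => u (σ i) t) (fun i => v (σ i) t) (fun i hi =>
    ⟨(hsol.evo (σ i)).C1 ht0, (hbnd (σ i)).2 t ht1, fun x hx =>
      ⟨hSol.pos i hi t ht0 x hx, (hbnd (σ i)).1 t ht0.le x hx⟩⟩) hGt
  refine ⟨t, ht1, fun y hy => ?_⟩
  obtain ⟨h1, h2⟩ := hcl y hy
  simp only [hσ0] at h1
  refine ⟨h1, fun j hj => ?_⟩
  rcases hall j hj with hab' | ⟨k, hk1, hkn, hkj⟩
  · rw [hab' t ht0.le y hy]
    exact hδ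
  · have := h2 k hk1 hkn
    simpa only [hkj] using this

end main

/-- CRI: the criterion. -/
theorem cri_st (hRts : RtsStatement) (hGtm : GtmStatement) (hDis : DisNStatement)
    (hLow : LowStatement) (hUpp : UppStatement) (hLob : LobStatement) (hClo : CloNStatement)
    (hPre : PreStatement) (hBnd : BndStatement) (hSho : ShoStatement) (hMrg : MrgNStatement) :
    CriNStatement := by
  intro p Ω q m a₀ b θ θ' θ'' N d i₀ hΩ hm hnc hd₀ hdj hθ ha₀ hab hθab hζ ε hε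
  have hd : ∀ i, 0 < d i := by
    intro i
    by_cases h : i = i₀
    · rw [h]; exact hd₀
    · exact hd₀.trans (hdj i h)
  obtain ⟨δ, hδ, hst⟩ := stab hRts hDis hUpp hLob hPre hBnd hSho hMrg hΩ hm hd hdj hθ ha₀ hab hθab
    hζ hε
  refine ⟨δ, hδ, fun u v w hsol => ⟨hst u v w hsol, fun hex => ?_⟩⟩
  obtain ⟨s, hs, hnear⟩ := attr hRts hGtm hDis hLow hClo hPre hBnd hMrg hΩ hm hnc hd hdj hθ ha₀ hab
    hθab hζ hδ hsol hex
  have hs0 : 0 ≤ s := zero_le_one.trans hs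
  have hsh : Sol Ω q m d (fun i t => u i (s + t)) (fun i t => v i (s + t))
      (fun i t => w i (s + t)) :=
    Sol.shift hsol hs0 fun i x hx => (hPre p Ω q m N d u v w hΩ hm hd hsol i).1 s hs0 x hx
  have hn : NearN Ω (fun i t => u i (s + t)) i₀ θ δ 0 := by
    intro x hx
    simpa using hnear x hx
  refine ⟨s, fun t ht x hx => ?_⟩
  have h1 := hst _ _ _ hsh hn (t - s) (by linarith) x hx
  simpa using h1

end Pool.Agent.Lib.MP_4fbe7c_an.ND.H54
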