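import Pool.Agent.Lib.MP_4fbe7c_an.ND.Base

/-!
Project ND (MP_4fbe7c_an): the equation in the domain implies the equation on the closure
(helper54).
-/

set_option autoImplicit false

open Set MeasureTheory Filter Topology

namespace Pool.Agent.Lib.MP_4fbe7c_an.ND.H54

open Pool.Agent.Lib.MP_4fbe7c_an.ND

variable {p : ℕ} {Ω : Set (Eu p)} {q : Eu p → ℝ}

/-- Time differentiability extends to the boundary. -/
theorem hasDerivAt_closure {z z' : ℝ → Eu p → ℝ}
    (hz : ContinuousOn (fun a : ℝ × Eu p => z a.1 a.2) (Ioi 0 ×ˢ closure Ω))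
    (hz' : ContinuousOn (fun a : ℝ × Eu p => z' a.1 a.2) (Ioi 0 ×ˢ closure Ω))
    (hd : ∀ t, 0 < t → ∀ x ∈ Ω, HasDerivAt (fun s => z s x) (z' t x) t) {t : ℝ} (ht : 0 < t)
    {x : Eu p} (hx : x ∈ closure Ω) : HasDerivAt (fun s => z s x) (z' t x) t := by
  haveI : NeBot (𝓝[Ω] x) := mem_closure_iff_nhdsWithin_neBot.mp hx
  refine hasDerivAt_of_tendstoLocallyUniformlyOn (l := 𝓝[Ω] x) (s := Ioi (0 : ℝ))
    (f := fun y s => z s y) (f' := fun y s => z' s y) (g := fun s => z s x)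
    (g' := fun s => z' s x) isOpen_Ioi ?_ ?_ ?_ ht
  · rw [Metric.tendstoLocallyUniformlyOn_iff]
    intro ε hε s hs
    have h1 : ContinuousWithinAt (fun a : ℝ × Eu p => z' a.1 a.2) (Ioi 0 ×ˢ closure Ω) (s, x) :=
      hz' (s, x) ⟨hs, hx⟩
    have h2 := h1.eventually (Metric.ball_mem_nhds _ (half_pos hε))
    rw [nhdsWithin_prod_eq] at h2
    obtain ⟨pa, hpa, pb, hpb, h3⟩ := Filter.eventually_prod_iff.mp h2
    refine ⟨{t | pa t}, hpa, ?_⟩
    have h4 : ∀ᶠ y in 𝓝[Ω] x, pb y := hpb.filter_mono (nhdsWithin_mono _ subset_closure)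
    have h5 : pb x := by
      have h6 : ∀ᶠ y in 𝓝[closure Ω] x, pb y := hpb
      exact h6.self_of_nhdsWithin hx
    filter_upwards [h4] with y hy t ht
    have h6 := h3 ht hy
    have h7 := h3 ht h5
    simp only [Metric.mem_ball] at h6 h7
    calc dist (z' t x) (z' t y) ≤ dist (z' t x) (z' s x) + dist (z' s x) (z' t y) :=
          dist_triangle _ _ _
      _ < ε / 2 + ε / 2 := by
          rw [dist_comm (z' s x)]
          exact add_lt_add h7 h6
      _ = ε := add_halves ε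
  · exact eventually_mem_nhdsWithin.mono fun y hy s hs => hd s hs y hy
  · intro s hs
    have h1 : ContinuousWithinAt (fun a : ℝ × Eu p => z a.1 a.2) (Ioi 0 ×ˢ closure Ω) (s, x) :=
      hz (s, x) ⟨hs, hx⟩
    have h2 : Tendsto (fun y : Eu p => (s, y)) (𝓝[Ω] x) (𝓝[Ioi 0 ×ˢ closure Ω] (s, x)) := by
      refine tendsto_nhdsWithin_iff.mpr ⟨?_, ?_⟩
      · exact ((by fun_prop : Continuous fun y : Eu p => (s, y)).tendsto x).mono_left
          nhdsWithin_le_nhds
      · exact eventually_mem_nhdsWithin.mono fun y hy => ⟨hs, subset_closure hy⟩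
    exact h1.tendsto.comp h2

/-- A continuous function which vanishes on `Ω` vanishes on the closure. -/
theorem eq_zero_closure {f : Eu p → ℝ} (hf : ContinuousOn f (closure Ω))
    (h0 : ∀ x ∈ Ω, f x = 0) : ∀ x ∈ closure Ω, f x = 0 := by
  intro x hx
  haveI : NeBot (𝓝[Ω] x) := mem_closure_iff_nhdsWithin_neBot.mp hx
  have h1 : Tendsto f (𝓝[Ω] x) (𝓝 (f x)) :=
    (hf x hx).tendsto.mono_left (nhdsWithin_mono _ subset_closure)
  have h2 : Tendsto f (𝓝[Ω] x) (𝓝 0) := by
    refine tendsto_const_nhds.congr' ?_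
    exact eventually_mem_nhdsWithin.mono fun y hy => (h0 y hy).symm
  exact tendsto_nhds_unique h1 h2

end Pool.Agent.Lib.MP_4fbe7c_an.ND.H54
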